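import Pool.Agent.Lib.MP_38d282_an.Main

/-!
MP_38d282_an, Q1: the sequence `1/((k+1)^{k+1} k!)` is a multiplier sequence.  More generally
`1/((k+1)^{k+1} (k!)^m)` is one for every `m = 0, 1, 2, …`.
-/

namespace Pool.Agent.Results.MP_38d282_an.MultiplierYes

open Pool.Agent.Lib.MP_38d282_an

/-- **Answer to Q1: yes** (the case `m = 1`).  In fact `1/((k+1)^{k+1} (k!)^m)` is a multiplier
sequence for every natural number `m`, in particular (`m = 0`) already `1/(k+1)^{k+1}` is. -/
theorem result (m : ℕ) :
    IsMultiplierSequence (fun k => 1 / (((k : ℝ) + 1) ^ (k + 1) * (k.factorial : ℝ) ^ m)) :=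
  isMultiplierSequence_gamma_factorial m

end Pool.Agent.Results.MP_38d282_an.MultiplierYes
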